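import Pool.Agent.Helper61.NW.Goals
import Pool.Agent.Helper52.Wq2.Cyls

/-! # Project NW: packet CYL (regions instead of routes) -/

set_option autoImplicit false

namespace Pool.Agent.Helper60.NW

open Pool.Agent.Helper52.Wq2 Pool.Agent.Helper61.NW

/-- The row at which the edge `(a, b)` arrives. -/
def rr (C D a b : ℤ) : ℤ := C * b + 3 * (a - b + D)

theorem exists_F (D C : ℤ) (hD : 0 ≤ D) (hC : C = 6 * (D + 1)) (E : ℤ → ℤ → Prop)
    (hE : ∀ a b, E a b → |a - b| ≤ D)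
    (hnc : ∀ a b a' b', E a b → E a' b' → a < a' → b ≤ b') :
    ∃ F : ℤ → ℤ, (∀ a, F a ≤ F (a + 1)) ∧ (∀ a, C * (a - D) ≤ F a ∧ F a ≤ C * (a + D)) ∧
      ∀ a b, E a b → F a ≤ rr C D a b ∧ rr C D a b + 3 ≤ F (a + 1) := by
  classical
  let S : ℤ → Set ℤ := fun a => {z | z = C * (a + D) ∨ ∃ a' b', a ≤ a' ∧ E a' b' ∧ z = rr C D a' b'}
  have hlow : ∀ a, ∀ z ∈ S a, C * (a - D) ≤ z := by
    rintro a z (rfl | ⟨a', b', h1, h2, rfl⟩)
    · nlinarith
    · have h3 := abs_le.1 (hE a' b' h2)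
      unfold rr
      nlinarith
  have hbdd : ∀ a, BddBelow (S a) := fun a => ⟨C * (a - D), hlow a⟩
  have hne : ∀ a, (S a).Nonempty := fun a => ⟨C * (a + D), Or.inl rfl⟩
  have hmem : ∀ a, sInf (S a) ∈ S a := fun a => Int.csInf_mem (hne a) (hbdd a)
  have hle : ∀ a, ∀ z ∈ S a, sInf (S a) ≤ z := fun a z hz => csInf_le (hbdd a) hz
  refine ⟨fun a => sInf (S a), ?_, ?_, ?_⟩
  · intro a
    rcases hmem (a + 1) with h | ⟨a', b', h1, h2, h3⟩
    · have h4 := hle a _ (Or.inl rfl)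
      show sInf (S a) ≤ sInf (S (a + 1))
      rw [h]
      nlinarith
    · show sInf (S a) ≤ sInf (S (a + 1))
      rw [h3]
      exact hle a _ (Or.inr ⟨a', b', by omega, h2, rfl⟩)
  · intro a
    exact ⟨hlow a _ (hmem a), hle a _ (Or.inl rfl)⟩
  · intro a b hab
    refine ⟨hle a _ (Or.inr ⟨a, b, le_refl _, hab, rfl⟩), ?_⟩
    have h5 := abs_le.1 (hE a b hab)
    show rr C D a b + 3 ≤ sInf (S (a + 1))
    rcases hmem (a + 1) with h | ⟨a', b', h1, h2, h3⟩
    · rw [h]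
      unfold rr
      nlinarith
    · rw [h3]
      have h6 := hnc a b a' b' hab h2 (by omega)
      unfold rr
      nlinarith

/-- The boundary of the regions. -/
def gg (w C : ℤ) (F : ℤ → ℤ) (x a : ℤ) : ℤ := ((w - x) * (C * a) + x * F a) / w

theorem gg_zero {w C : ℤ} {F : ℤ → ℤ} (hw : 0 < w) (a : ℤ) : gg w C F 0 a = C * a := by
  unfold gg
  rw [sub_zero, zero_mul, add_zero, Int.mul_ediv_cancel_left _ hw.ne']

theorem gg_top {w C : ℤ} {F : ℤ → ℤ} (hw : 0 < w) (a : ℤ) : gg w C F w a = F a := by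
  unfold gg
  rw [sub_self, zero_mul, zero_add, Int.mul_ediv_cancel_left _ hw.ne']

theorem gg_mono {w C : ℤ} {F : ℤ → ℤ} (hw : 0 < w) (hC : 0 ≤ C) (hF : ∀ a, F a ≤ F (a + 1))
    {x : ℤ} (hx0 : 0 ≤ x) (hxw : x ≤ w) : Monotone (gg w C F x) := by
  refine monotone_int_of_le_succ fun a => ?_
  unfold gg
  refine Int.ediv_le_ediv hw ?_
  have h1 := hF a
  have h2 : (w - x) * (C * a) ≤ (w - x) * (C * (a + 1)) :=
    mul_le_mul_of_nonneg_left (by nlinarith) (by omega)
  have h3 : x * F a ≤ x * F (a + 1) := mul_le_mul_of_nonneg_left h1 hx0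
  omega

theorem gg_step {w C D : ℤ} {F : ℤ → ℤ} (hw : 0 < w) (hCD : C * D ≤ w)
    (hF : ∀ a, C * (a - D) ≤ F a ∧ F a ≤ C * (a + D)) (x a : ℤ) :
    gg w C F (x + 1) a ≤ gg w C F x a + 1 ∧ gg w C F x a ≤ gg w C F (x + 1) a + 1 := by
  unfold gg
  have h1 := hF a
  constructor
  · rw [← Int.add_mul_ediv_right _ _ hw.ne']
    refine Int.ediv_le_ediv hw ?_
    nlinarith
  · rw [← Int.add_mul_ediv_right _ _ hw.ne']
    refine Int.ediv_le_ediv hw ?_
    nlinarith

theorem gg_three {w C : ℤ} {F : ℤ → ℤ} (hw : 0 < w) (hC : 3 ≤ C) {a : ℤ}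
    (hF : F a + 3 ≤ F (a + 1)) {x : ℤ} (hx0 : 0 ≤ x) (hxw : x ≤ w) :
    gg w C F x a + 3 ≤ gg w C F x (a + 1) := by
  unfold gg
  rw [← Int.add_mul_ediv_right _ _ hw.ne']
  refine Int.ediv_le_ediv hw ?_
  have h2 : (w - x) * (C * a + 3) ≤ (w - x) * (C * (a + 1)) :=
    mul_le_mul_of_nonneg_left (by nlinarith) (by omega)
  have h3 : x * (F a + 3) ≤ x * F (a + 1) := mul_le_mul_of_nonneg_left hF hx0
  nlinarith

theorem cyl_v {M : ℕ} (y : ℤ) (c : ZMod M) : (Cyl M).Adj (y, c) (y + 1, c) := by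
  unfold Cyl
  rw [SimpleGraph.fromRel_adj]
  exact ⟨fun h => by simpa using congrArg Prod.fst h, Or.inl (Or.inl ⟨rfl, rfl⟩)⟩

theorem cyl_h {M : ℕ} (hM : 1 < M) (y : ℤ) (c : ZMod M) : (Cyl M).Adj (y, c) (y, c + 1) := by
  haveI : Fact (1 < M) := ⟨hM⟩
  unfold Cyl
  rw [SimpleGraph.fromRel_adj]
  refine ⟨fun h => ?_, Or.inl (Or.inr ⟨rfl, rfl⟩)⟩
  have h2 : c = c + 1 := congrArg Prod.snd h
  exact one_ne_zero (left_eq_add.1 h2)

/-- **CYL.** -/
theorem cyl : CylStmt := by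
  classical
  intro n hn D E hE hnc
  haveI : NeZero n := ⟨by omega⟩
  have key : ∀ j : ZMod n, ∃ F : ℤ → ℤ, (∀ a, F a ≤ F (a + 1)) ∧
      (∀ a, (6 * ((D : ℤ) + 1)) * (a - D) ≤ F a ∧ F a ≤ (6 * ((D : ℤ) + 1)) * (a + D)) ∧
      ∀ a b, E j a b → F a ≤ rr (6 * ((D : ℤ) + 1)) D a b ∧
        rr (6 * ((D : ℤ) + 1)) D a b + 3 ≤ F (a + 1) := fun j =>
    exists_F D _ (Int.natCast_nonneg D) rfl (E j) (fun a b h => hE j a b h)
      (fun a b a' b' h h' => hnc j a b a' b' h h')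
  choose F hF1 hF2 hF3 using key
  set C : ℤ := 6 * ((D : ℤ) + 1) with hCdef
  have hC3 : 3 ≤ C := by omega
  have hC0 : 0 ≤ C := by omega
  set w₀ : ℕ := 6 * (D + 1) * D + 2 with hw₀
  refine ⟨n * w₀, fun M hM => ?_⟩
  have hM1 : 1 < M := by nlinarith
  haveI : NeZero M := ⟨by omega⟩
  -- widths
  set Wd : ZMod n → ℕ := fun j => if j.val = n - 1 then M - (n - 1) * w₀ else w₀ with hWd
  have hvl : ∀ j : ZMod n, j.val < n := fun j => ZMod.val_lt j
  have hM' : (n - 1) * w₀ + w₀ ≤ M := by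
    have : (n - 1) * w₀ + w₀ = n * w₀ := by
      obtain ⟨m, rfl⟩ : ∃ m, n = m + 1 := ⟨n - 1, by omega⟩
      simp
      ring
    omega
  have hWge : ∀ j, w₀ ≤ Wd j := by
    intro j
    simp only [hWd]
    split_ifs
    · omega
    · exact le_refl _
  have hWpos : ∀ j, (0 : ℤ) < Wd j := fun j => by
    have := hWge j
    omega
  have hWCD : ∀ j, C * D ≤ (Wd j : ℤ) := by
    intro j
    have h1 := hWge j
    have h2 : (w₀ : ℤ) = C * D + 2 := by
      rw [hw₀, hCdef]
      push_cast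
      ring
    have h3 : (w₀ : ℤ) ≤ Wd j := by exact_mod_cast h1
    omega
  have hcolM : ∀ j : ZMod n, ∀ x : ℕ, x < Wd j → w₀ * j.val + x < M := by
    intro j x hx
    simp only [hWd] at hx
    have h1 := hvl j
    split_ifs at hx with h
    · rw [h]
      have : w₀ * (n - 1) = (n - 1) * w₀ := mul_comm _ _
      omega
    · have h2 : w₀ * j.val + w₀ ≤ (n - 1) * w₀ := by
        have : j.val + 1 ≤ n - 1 := by omega
        calc w₀ * j.val + w₀ = (j.val + 1) * w₀ := by ring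
          _ ≤ (n - 1) * w₀ := Nat.mul_le_mul_right _ this
      omega
  set col : ZMod n → ℕ → ZMod M := fun j x => ((w₀ * j.val + x : ℕ) : ZMod M) with hcol
  have hcolS : ∀ j x, col j (x + 1) = col j x + 1 := by
    intro j x
    simp only [hcol]
    push_cast
    ring
  have hcolN : ∀ j, col (j + 1) 0 = col j (Wd j) := by
    intro j
    have h1 : (j + 1).val = (j.val + 1) % n := by
      rw [ZMod.val_add, ZMod.val_one_eq_one_mod]
      rw [Nat.add_mod, Nat.mod_mod, ← Nat.add_mod]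
    simp only [hcol, hWd]
    rw [h1]
    have h2 := hvl j
    split_ifs with h
    · have h3 : (j.val + 1) % n = 0 := by
        rw [h]
        have : n - 1 + 1 = n := by omega
        rw [this, Nat.mod_self]
      rw [h3, h]
      have h4 : w₀ * (n - 1) + (M - (n - 1) * w₀) = M := by
        have : w₀ * (n - 1) = (n - 1) * w₀ := mul_comm _ _
        omega
      rw [h4]
      simp
    · have h3 : (j.val + 1) % n = j.val + 1 := Nat.mod_eq_of_lt (by omega)
      rw [h3]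
      congr 1
  have hcolI : ∀ j x j' x', x < Wd j → x' < Wd j' → col j x = col j' x' → j = j' ∧ x = x' := by
    intro j x j' x' hx hx' h
    have h1 : w₀ * j.val + x = w₀ * j'.val + x' := by
      have h2 := (ZMod.natCast_eq_natCast_iff' _ _ _).1 h
      rwa [Nat.mod_eq_of_lt (hcolM j x hx), Nat.mod_eq_of_lt (hcolM j' x' hx')] at h2
    have aux : ∀ (i i' : ZMod n) (z z' : ℕ), z < Wd i → w₀ * i.val + z = w₀ * i'.val + z' →
        ¬ i.val < i'.val := by
      intro i i' z z' hz he hlt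
      have h3 : i.val ≠ n - 1 := by
        have := hvl i'
        omega
      simp only [hWd, if_neg h3] at hz
      have h4 : w₀ * i.val + w₀ ≤ w₀ * i'.val := by
        calc w₀ * i.val + w₀ = w₀ * (i.val + 1) := by ring
          _ ≤ w₀ * i'.val := Nat.mul_le_mul_left _ hlt
      omega
    have h5 : j.val = j'.val := by
      rcases Nat.lt_trichotomy j.val j'.val with h6 | h6 | h6
      · exact absurd h6 (aux j j' x x' hx h1)
      · exact h6
      · exact absurd h6 (aux j' j x' x hx' h1.symm)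
    have h7 : j = j' := ZMod.val_injective n h5
    subst h7
    exact ⟨rfl, by omega⟩
  -- the regions
  set g : ZMod n → ℕ → ℤ → ℤ := fun j x a => gg (Wd j) C (F j) x a with hg
  have hgmono : ∀ j (x : ℕ), x ≤ Wd j → Monotone (g j x) := fun j x hx =>
    gg_mono (hWpos j) hC0 (hF1 j) (Int.natCast_nonneg x) (by exact_mod_cast hx)
  have hg0 : ∀ j a, g j 0 a = C * a := fun j a => by
    simp only [hg]
    exact gg_zero (hWpos j) a
  have hgstep : ∀ j (x : ℕ) a, g j (x + 1) a ≤ g j x a + 1 ∧ g j x a ≤ g j (x + 1) a + 1 := by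
    intro j x a
    have := gg_step (hWpos j) (hWCD j) (hF2 j) x a
    simp only [hg]
    push_cast
    exact this
  have hgtop : ∀ j a, g j (Wd j) a = F j a := fun j a => by
    simp only [hg]
    exact gg_top (hWpos j) a
  have hg3 : ∀ j (x : ℕ) a, x ≤ Wd j → (∃ b, E j a b) → g j x a + 3 ≤ g j x (a + 1) := by
    rintro j x a hx ⟨b, hb⟩
    have h1 := hF3 j a b hb
    exact gg_three (hWpos j) hC3 (by omega) (Int.natCast_nonneg x) (by exact_mod_cast hx)
  set top : ZMod n → ℤ → ℕ := fun j a => if (∃ b, E j a b) then Wd j - 1 else 0 with htop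
  have htopW : ∀ j a, top j a < Wd j := by
    intro j a
    have := hWge j
    simp only [htop]
    split_ifs <;> omega
  have hglt : ∀ j a (x : ℕ), x ≤ top j a → g j x a < g j x (a + 1) := by
    intro j a x hx
    by_cases h : ∃ b, E j a b
    · have := hg3 j x a (hx.trans (htopW j a).le) h
      omega
    · have : x = 0 := by
        simp only [htop, if_neg h] at hx
        omega
      subst this
      rw [hg0, hg0]
      nlinarith
  set A : ZMod n → ℤ → ℕ → Set (ℤ × ZMod M) := fun j a x =>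
    {v | ∃ y, (g j x a ≤ y ∧ y < g j x (a + 1)) ∧ ((y, col j x) : ℤ × ZMod M) = v} with hA
  have hbr : ∀ (v v' : ℤ × ZMod n), ((v'.2 = v.2 ∧ v'.1 = v.1 + 1) ∨
      (v'.2 = v.2 + 1 ∧ E v.2 v.1 v'.1)) →
      ∃ p ∈ {u | ∃ i, i ≤ top v.2 v.1 ∧ u ∈ A v.2 v.1 i},
        ∃ q ∈ {u | ∃ i, i ≤ top v'.2 v'.1 ∧ u ∈ A v'.2 v'.1 i}, (Cyl M).Adj p q := by
    rintro ⟨a, j⟩ ⟨b, j'⟩ (⟨h1, h2⟩ | ⟨h1, h2⟩)
    · obtain rfl : j' = j := h1
      obtain rfl : b = a + 1 := h2
      have hlt := hglt j' a 0 (Nat.zero_le _)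
      have hlt' := hglt j' (a + 1) 0 (Nat.zero_le _)
      have m1 : ((g j' 0 (a + 1) - 1, col j' 0) : ℤ × ZMod M) ∈ A j' a 0 :=
        ⟨_, ⟨by omega, by omega⟩, rfl⟩
      have m2 : ((g j' 0 (a + 1), col j' 0) : ℤ × ZMod M) ∈ A j' (a + 1) 0 :=
        ⟨_, ⟨le_refl _, hlt'⟩, rfl⟩
      refine ⟨_, ⟨0, Nat.zero_le _, m1⟩, _, ⟨0, Nat.zero_le _, m2⟩, ?_⟩
      have := cyl_v (M := M) (g j' 0 (a + 1) - 1) (col j' 0)
      rwa [sub_add_cancel] at this
    · obtain rfl : j' = j + 1 := h1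
      have h2 : E j a b := h2
      have hab := abs_le.1 (hE j a b h2)
      have h3 := hF3 j a b h2
      have hW2 := hWge j
      obtain ⟨x, hx⟩ : ∃ x, Wd j = x + 1 := ⟨Wd j - 1, by omega⟩
      have htx : top j a = x := by
        simp only [htop]
        rw [if_pos ⟨b, h2⟩, hx]
        rfl
      have s1 := hgstep j x a
      have s2 := hgstep j x (a + 1)
      have t1 := hgtop j a
      have t2 := hgtop j (a + 1)
      rw [hx] at t1 t2
      have m1 : ((rr C D a b + 1, col j x) : ℤ × ZMod M) ∈ A j a x :=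
        ⟨_, ⟨by omega, by omega⟩, rfl⟩
      have m2 : ((rr C D a b + 1, col (j + 1) 0) : ℤ × ZMod M) ∈ A (j + 1) b 0 := by
        refine ⟨_, ⟨?_, ?_⟩, rfl⟩
        · rw [hg0]
          unfold rr
          omega
        · rw [hg0]
          unfold rr
          have : C * (b + 1) = C * b + C := by ring
          rw [this]
          omega
      refine ⟨_, ⟨x, htx.ge, m1⟩, _, ⟨0, Nat.zero_le _, m2⟩, ?_⟩
      rw [hcolN, hx, hcolS]
      exact cyl_h hM1 _ _
  refine ⟨fun v => {u | ∃ i, i ≤ top v.2 v.1 ∧ u ∈ A v.2 v.1 i}, ?_, ?_, ?_⟩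
  · rintro ⟨a, j⟩
    refine conn_chain (A j a) (top j a) ?_ ?_
    · intro x hx
      have hlt := hglt j a x hx
      refine conn_line (fun y : ℤ => ((y, col j x) : ℤ × ZMod M))
        (fun y => g j x a ≤ y ∧ y < g j x (a + 1)) (g j x a) ⟨le_refl _, hlt⟩ ?_ ?_ ?_
      · intro y hy h
        exact ⟨hy, by omega⟩
      · intro y hy h
        omega
      · intro y _ _
        exact cyl_v y _
    · intro x hx
      have hE' : ∃ b, E j a b := by
        by_contra h
        simp only [htop, if_neg h] at hx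
        omega
      have hx1 : x + 1 < Wd j := lt_of_le_of_lt hx (htopW j a)
      have k1 := hg3 j x a (by omega) hE'
      have k2 := hg3 j (x + 1) a (by omega) hE'
      have s1 := hgstep j x a
      have s2 := hgstep j x (a + 1)
      refine ⟨(g j x a + 1, col j x), ⟨_, ⟨by omega, by omega⟩, rfl⟩,
        (g j x a + 1, col j (x + 1)), ⟨_, ⟨by omega, by omega⟩, rfl⟩, ?_⟩
      rw [hcolS]
      exact cyl_h hM1 _ _
  · rintro ⟨a, j⟩ ⟨a', j'⟩ _ ⟨x, hx, y, hy, rfl⟩ ⟨x', hx', y', hy', he⟩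
    have h1 : y' = y := congrArg Prod.fst he
    have h2 : col j' x' = col j x := congrArg Prod.snd he
    obtain ⟨h3, h4⟩ := hcolI j' x' j x (lt_of_le_of_lt hx' (htopW j' a'))
      (lt_of_le_of_lt hx (htopW j a)) h2
    subst h3 h4 h1
    simp only at hx hx' hy hy'
    have hm := hgmono j' x' (lt_of_le_of_lt hx' (htopW j' a')).le
    rcases lt_trichotomy a a' with h5 | h5 | h5
    · have := hm (show a + 1 ≤ a' by omega)
      omega
    · rw [h5]
    · have := hm (show a' + 1 ≤ a by omega)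
      omega
  · intro v v' hvv
    rw [SimpleGraph.fromRel_adj] at hvv
    rcases hvv.2 with h | h
    · exact hbr v v' h
    · obtain ⟨p, hp, q, hq, hpq⟩ := hbr v' v h
      exact ⟨q, hq, p, hp, hpq.symm⟩

end Pool.Agent.Helper60.NW
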